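import Mathlib

set_option autoImplicit false

namespace Pool.Agent.R171.DM

open Metric

section mono

variable {V : Type*} [NormedAddCommGroup V] [NormedSpace ℝ V]

/-- moving along the normalised segment from `q` to `p` does not increase the distance to `p` -/
lemma mono {p q : V} (hp : ‖p‖ = 1) (hq : ‖q‖ = 1) {t : ℝ} (h0 : 0 ≤ t) (h1 : t ≤ 1)
    (hz : (1 - t) • q + t • p ≠ 0) :
    ‖p - (‖(1 - t) • q + t • p‖)⁻¹ • ((1 - t) • q + t • p)‖ ≤ ‖p - q‖ := by
  set z := (1 - t) • q + t • p with hzdef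
  have hzn : 0 < ‖z‖ := norm_pos_iff.mpr hz
  have e1 : p - z = (1 - t) • (p - q) := by rw [hzdef]; module
  have e2 : q - z = (-t) • (p - q) := by rw [hzdef]; module
  have n1 : ‖p - z‖ = (1 - t) * ‖p - q‖ := by
    rw [e1, norm_smul, Real.norm_of_nonneg (by linarith)]
  have n2 : ‖q - z‖ = t * ‖p - q‖ := by
    rw [e2, norm_smul, norm_neg, Real.norm_of_nonneg h0]
  have hz1 : ‖z‖ ≤ 1 := by
    calc ‖z‖ ≤ ‖(1 - t) • q‖ + ‖t • p‖ := norm_add_le _ _
      _ = 1 := by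
        rw [norm_smul, norm_smul, hp, hq, Real.norm_of_nonneg h0,
          Real.norm_of_nonneg (by linarith)]
        ring
  have h3 : 1 - ‖z‖ ≤ t * ‖p - q‖ := by
    have := norm_sub_norm_le q z
    rw [hq, n2] at this
    exact this
  have e3 : ‖z - ‖z‖⁻¹ • z‖ = 1 - ‖z‖ := by
    have : z - ‖z‖⁻¹ • z = -((‖z‖⁻¹ - 1) • z) := by module
    rw [this, norm_neg, norm_smul, Real.norm_of_nonneg]
    · field_simp
    · have := (one_le_inv₀ hzn).mpr hz1
      linarith
  calc ‖p - ‖z‖⁻¹ • z‖ = ‖(p - z) + (z - ‖z‖⁻¹ • z)‖ := by congr 1; abel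
    _ ≤ ‖p - z‖ + ‖z - ‖z‖⁻¹ • z‖ := norm_add_le _ _
    _ ≤ ‖p - q‖ := by rw [n1, e3]; nlinarith

lemma cone_mono {x y : V} (hx : ‖x‖ = 1) (hy : ‖y‖ = 1) {a b : ℝ} (ha : 0 ≤ a) (hb : 0 ≤ b)
    (hn : ‖a • x + b • y‖ = 1) : ‖x - (a • x + b • y)‖ ≤ ‖x - y‖ := by
  have hs : 0 < a + b := by
    rcases lt_or_eq_of_le (add_nonneg ha hb) with h | h
    · exact h
    · exfalso
      have h1 : a = 0 := by linarith
      have h2 : b = 0 := by linarith
      rw [h1, h2] at hn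
      simp at hn
  have hz : (1 - a / (a + b)) • y + (a / (a + b)) • x = (a + b)⁻¹ • (a • x + b • y) := by
    have : 1 - a / (a + b) = (a + b)⁻¹ * b := by field_simp; ring
    have h2 : a / (a + b) = (a + b)⁻¹ * a := by field_simp
    rw [this, h2]
    module
  have hzn : ‖(1 - a / (a + b)) • y + (a / (a + b)) • x‖ = (a + b)⁻¹ := by
    rw [hz, norm_smul, hn, mul_one, Real.norm_of_nonneg (inv_nonneg.mpr hs.le)]
  have h := mono (p := x) (q := y) hx hy (t := a / (a + b)) (by positivity)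
    ((div_le_one hs).mpr (by linarith)) (by
      intro h0
      rw [h0, norm_zero] at hzn
      exact (inv_pos.mpr hs).ne hzn)
  rw [hzn, inv_inv, hz, smul_smul, mul_inv_cancel₀ hs.ne', one_smul] at h
  exact h

end mono

section plane

variable {Y : Type*} [NormedAddCommGroup Y] [NormedSpace ℝ Y]

lemma exists_unit (hr : 1 < Module.rank ℝ Y) : ∃ x : Y, ‖x‖ = 1 := by
  have : Nontrivial Y := by
    rw [← rank_pos_iff_nontrivial (R := ℝ)]
    exact lt_trans zero_lt_one hr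
  exact exists_norm_eq Y zero_le_one

lemma exists_dist (hr : 1 < Module.rank ℝ Y) {x : Y} (hx : ‖x‖ = 1) {ε : ℝ} (h0 : 0 ≤ ε)
    (h2 : ε ≤ 2) : ∃ y : Y, ‖y‖ = 1 ∧ ‖x - y‖ = ε := by
  have hc := isPreconnected_sphere hr (0 : Y) 1
  have h := hc.intermediate_value (f := fun y => ‖x - y‖) (a := x) (b := -x)
    (by simp [hx]) (by simp [hx]) (by fun_prop)
  have hm : ε ∈ Set.Icc ‖x - x‖ ‖x - -x‖ := by
    constructor
    · simpa using h0
    · have : x - -x = (2 : ℝ) • x := by module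
      rw [this, norm_smul, hx]
      simpa using h2
  obtain ⟨y, hy, hy2⟩ := h hm
  exact ⟨y, by simpa using hy, hy2⟩

lemma exists_iso (hr : 1 < Module.rank ℝ Y) {x : Y} (hx : ‖x‖ = 1) :
    ∃ y : Y, ‖y‖ = 1 ∧ ‖x + y‖ = ‖x - y‖ := by
  have hc := isPreconnected_sphere hr (0 : Y) 1
  obtain ⟨y, hy, hy2⟩ := hc.intermediate_value₂ (f := fun y => ‖x + y‖) (g := fun y => ‖x - y‖)
    (a := -x) (b := x) (by simp [hx]) (by simp [hx]) (by fun_prop) (by fun_prop)
    (by simp) (by simp)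
  exact ⟨y, by simpa using hy, hy2⟩

lemma iso_indep {x y : Y} (hx : ‖x‖ = 1) (hy : ‖y‖ = 1) (h : ‖x + y‖ = ‖x - y‖) :
    LinearIndependent ℝ ![x, y] := by
  rw [LinearIndependent.pair_iff]
  have key : ∀ s t : ℝ, s • x + t • y = 0 → s = 0 := by
    intro s t hst
    by_contra hs
    have e : x = (-(t / s)) • y := by
      have h1 : s • x = (-t) • y := by
        rw [neg_smul]; exact eq_neg_of_add_eq_zero_left hst
      have h2 : x = s⁻¹ • (s • x) := by rw [smul_smul, inv_mul_cancel₀ hs, one_smul]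
      rw [h2, h1, smul_smul]
      congr 1
      field_simp
    have hn : |t / s| = 1 := by
      have := congrArg norm e
      rw [norm_smul, hx, hy, norm_neg, Real.norm_eq_abs, mul_one] at this
      exact this.symm
    rcases (abs_eq zero_le_one).mp hn with h1 | h1
    · rw [e, h1] at h
      have e1 : (-1 : ℝ) • y + y = 0 := by module
      have e2 : (-1 : ℝ) • y - y = (-2 : ℝ) • y := by module
      rw [e1, e2, norm_smul, hy] at h
      norm_num at h
    · rw [e, h1] at h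
      have e1 : (-(-1) : ℝ) • y + y = (2 : ℝ) • y := by module
      have e2 : (-(-1) : ℝ) • y - y = 0 := by module
      rw [e1, e2, norm_smul, hy] at h
      norm_num at h
  intro s t hst
  have hs := key s t hst
  refine ⟨hs, ?_⟩
  rw [hs, zero_smul, zero_add] at hst
  rcases smul_eq_zero.mp hst with h1 | h1
  · exact h1
  · rw [h1, norm_zero] at hy
    exact absurd hy (by norm_num)

/-- In a plane, the value `‖x + y‖ = ‖x - y‖` at an isosceles orthogonal pair of unit vectors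
bounds `min ‖x + y'‖ ‖x - y'‖` for all unit vectors `y'`. -/
lemma iso_max (hf : Module.finrank ℝ Y = 2) {x y : Y} (hx : ‖x‖ = 1) (hy : ‖y‖ = 1)
    (h : ‖x + y‖ = ‖x - y‖) {y' : Y} (hy' : ‖y'‖ = 1) : min ‖x + y'‖ ‖x - y'‖ ≤ ‖x + y‖ := by
  have hli := iso_indep hx hy h
  have hfd : FiniteDimensional ℝ Y := Module.finite_of_finrank_pos (by omega)
  have hsp := hli.span_eq_top_of_card_eq_finrank' (by rw [hf]; simp)
  have hm : y' ∈ Submodule.span ℝ (Set.range ![x, y]) := by rw [hsp]; trivial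
  obtain ⟨c, hc⟩ := (Submodule.mem_span_range_iff_exists_fun ℝ).mp hm
  rw [Fin.sum_univ_two] at hc
  simp only [Matrix.cons_val_zero, Matrix.cons_val_one] at hc
  set a := c 0
  set b := c 1
  have hny : ‖-y‖ = 1 := by rw [norm_neg, hy]
  rcases le_total 0 a with ha | ha <;> rcases le_total 0 b with hb | hb
  · have := cone_mono hx hy ha hb (by rw [hc]; exact hy')
    rw [hc] at this
    exact (min_le_right _ _).trans (this.trans h.ge)
  · have e : a • x + (-b) • (-y) = y' := by rw [← hc]; module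
    have := cone_mono hx hny ha (neg_nonneg.mpr hb) (by rw [e]; exact hy')
    rw [e, sub_neg_eq_add] at this
    exact (min_le_right _ _).trans this
  · have e : (-a) • x + b • (-y) = -y' := by rw [← hc]; module
    have := cone_mono hx hny (neg_nonneg.mpr ha) hb (by rw [e, norm_neg]; exact hy')
    rw [e, sub_neg_eq_add, sub_neg_eq_add] at this
    exact (min_le_left _ _).trans this
  · have e : (-a) • x + (-b) • y = -y' := by rw [← hc]; module
    have := cone_mono hx hy (neg_nonneg.mpr ha) (neg_nonneg.mpr hb)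
      (by rw [e, norm_neg]; exact hy')
    rw [e, sub_neg_eq_add] at this
    exact (min_le_left _ _).trans (this.trans h.ge)

/-- the function `x ↦ max min (‖x + y‖, ‖x - y‖)` -/
noncomputable def cc (x : Y) : ℝ := ⨆ y : sphere (0 : Y) 1, min ‖x + (y : Y)‖ ‖x - (y : Y)‖

omit [NormedSpace ℝ Y] in
lemma cc_bdd (x : Y) : BddAbove (Set.range fun y : sphere (0 : Y) 1 =>
    min ‖x + (y : Y)‖ ‖x - (y : Y)‖) := by
  refine ⟨‖x‖ + 1, ?_⟩
  rintro _ ⟨y, rfl⟩
  have hy : ‖(y : Y)‖ = 1 := by simpa using y.2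
  exact (min_le_left _ _).trans ((norm_add_le _ _).trans (by rw [hy]))

lemma cc_lip (hr : 1 < Module.rank ℝ Y) : Continuous (cc : Y → ℝ) := by
  have hne : Nonempty (sphere (0 : Y) 1) := by
    obtain ⟨x, hx⟩ := exists_unit hr
    exact ⟨⟨x, by simpa using hx⟩⟩
  have h : LipschitzWith 1 (cc : Y → ℝ) := by
    refine LipschitzWith.of_le_add fun x x' => ?_
    refine ciSup_le fun y => ?_
    have h1 : ‖x + (y : Y)‖ ≤ ‖x' + (y : Y)‖ + dist x x' := by
      rw [dist_eq_norm]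
      calc ‖x + (y : Y)‖ = ‖(x' + y) + (x - x')‖ := by congr 1; abel
        _ ≤ _ := norm_add_le _ _
    have h2 : ‖x - (y : Y)‖ ≤ ‖x' - (y : Y)‖ + dist x x' := by
      rw [dist_eq_norm]
      calc ‖x - (y : Y)‖ = ‖(x' - y) + (x - x')‖ := by congr 1; abel
        _ ≤ _ := norm_add_le _ _
    have h3 : min ‖x + (y : Y)‖ ‖x - (y : Y)‖ ≤
        min ‖x' + (y : Y)‖ ‖x' - (y : Y)‖ + dist x x' := by
      rw [← min_add_add_right]
      exact min_le_min h1 h2
    have h4 := le_ciSup (cc_bdd x') y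
    unfold cc
    linarith
  exact h.continuous

lemma cc_iso (hf : Module.finrank ℝ Y = 2) {x y : Y} (hx : ‖x‖ = 1) (hy : ‖y‖ = 1)
    (h : ‖x + y‖ = ‖x - y‖) : cc x = ‖x + y‖ := by
  have hne : Nonempty (sphere (0 : Y) 1) := ⟨⟨x, by simpa using hx⟩⟩
  apply le_antisymm
  · exact ciSup_le fun y' => iso_max hf hx hy h (by simpa using y'.2)
  · have h4 := le_ciSup (cc_bdd x) ⟨y, by simpa using hy⟩
    rw [← h, min_self] at h4
    exact h4

lemma exists_sqrt_two (hf : Module.finrank ℝ Y = 2) :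
    ∃ x y : Y, ‖x‖ = 1 ∧ ‖y‖ = 1 ∧ ‖x + y‖ = √2 ∧ ‖x - y‖ = √2 := by
  have hfd : FiniteDimensional ℝ Y := Module.finite_of_finrank_pos (by omega)
  have hr : 1 < Module.rank ℝ Y := by
    rw [← Module.finrank_eq_rank, hf]
    norm_num
  obtain ⟨x₀, hx₀⟩ := exists_unit hr
  obtain ⟨y₀, hy₀, h₀⟩ := exists_iso hr hx₀
  set c := ‖x₀ + y₀‖ with hc
  have hcpos : 0 < c := by
    have : ‖(x₀ + y₀) + (x₀ - y₀)‖ ≤ c + c := by
      refine (norm_add_le _ _).trans ?_
      rw [← h₀]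
    have e : (x₀ + y₀) + (x₀ - y₀) = (2 : ℝ) • x₀ := by module
    rw [e, norm_smul, hx₀] at this
    norm_num at this
    linarith
  have hw1 : ‖c⁻¹ • (x₀ + y₀)‖ = 1 := by
    rw [norm_smul, norm_inv, Real.norm_of_nonneg hcpos.le, ← hc]
    exact inv_mul_cancel₀ hcpos.ne'
  have hw2 : ‖c⁻¹ • (x₀ - y₀)‖ = 1 := by
    rw [norm_smul, norm_inv, Real.norm_of_nonneg hcpos.le, ← h₀]
    exact inv_mul_cancel₀ hcpos.ne'
  have hs : ‖c⁻¹ • (x₀ + y₀) + c⁻¹ • (x₀ - y₀)‖ = 2 / c := by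
    have e : c⁻¹ • (x₀ + y₀) + c⁻¹ • (x₀ - y₀) = (2 / c) • x₀ := by
      rw [div_eq_mul_inv]; module
    rw [e, norm_smul, hx₀, Real.norm_of_nonneg (by positivity), mul_one]
  have hd : ‖c⁻¹ • (x₀ + y₀) - c⁻¹ • (x₀ - y₀)‖ = 2 / c := by
    have e : c⁻¹ • (x₀ + y₀) - c⁻¹ • (x₀ - y₀) = (2 / c) • y₀ := by
      rw [div_eq_mul_inv]; module
    rw [e, norm_smul, hy₀, Real.norm_of_nonneg (by positivity), mul_one]
  have c1 : cc x₀ = c := cc_iso hf hx₀ hy₀ h₀
  have c2 : cc (c⁻¹ • (x₀ + y₀)) = 2 / c := by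
    rw [cc_iso hf hw1 hw2 (hs.trans hd.symm), hs]
  have hs2 : (√2 : ℝ) ^ 2 = 2 := Real.sq_sqrt (by norm_num)
  have hs0 : (0 : ℝ) < √2 := by positivity
  have hcon := isPreconnected_sphere hr (0 : Y) 1
  have hex : ∃ x ∈ sphere (0 : Y) 1, cc x = √2 := by
    rcases le_total c √2 with hle | hle
    · have h2 : √2 ≤ 2 / c := by
        rw [le_div_iff₀ hcpos]
        nlinarith
      obtain ⟨x, hx, hx2⟩ := hcon.intermediate_value (f := cc) (a := x₀)
        (b := c⁻¹ • (x₀ + y₀)) (by simpa using hx₀) (by simpa using hw1)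
        (cc_lip hr).continuousOn (show √2 ∈ Set.Icc _ _ by rw [c1, c2]; exact ⟨hle, h2⟩)
      exact ⟨x, hx, hx2⟩
    · have h2 : 2 / c ≤ √2 := by
        rw [div_le_iff₀ hcpos]
        nlinarith
      obtain ⟨x, hx, hx2⟩ := hcon.intermediate_value (f := cc) (b := x₀)
        (a := c⁻¹ • (x₀ + y₀)) (by simpa using hw1) (by simpa using hx₀)
        (cc_lip hr).continuousOn (show √2 ∈ Set.Icc _ _ by rw [c1, c2]; exact ⟨h2, hle⟩)
      exact ⟨x, hx, hx2⟩
  obtain ⟨x, hx, hx2⟩ := hex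
  have hx' : ‖x‖ = 1 := by simpa using hx
  obtain ⟨y, hy, h⟩ := exists_iso hr hx'
  have h3 := cc_iso hf hx' hy h
  rw [hx2] at h3
  exact ⟨x, y, hx', hy, h3.symm, by rw [← h]; exact h3.symm⟩

end plane

end Pool.Agent.R171.DM
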