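import Mathlib
import Pool.Agent.R171.DM.Basic

set_option autoImplicit false

namespace Pool.Agent.R171.DM

open Metric

section pair

variable {V W : Type*} [NormedAddCommGroup V] [NormedSpace ℝ V] [NormedAddCommGroup W]
  [NormedSpace ℝ W]

/-- two unit vectors `x`, `y` with `‖x + y‖ = ‖x - y‖ = √2` in every space of dimension at least
two -/
lemma exists_sqrt_two' (hr : 1 < Module.rank ℝ V) :
    ∃ x y : V, ‖x‖ = 1 ∧ ‖y‖ = 1 ∧ ‖x + y‖ = √2 ∧ ‖x - y‖ = √2 := by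
  obtain ⟨x, hx⟩ := exists_unit hr
  have hx0 : x ≠ 0 := by
    rintro rfl
    simp at hx
  obtain ⟨y, hy⟩ := exists_linearIndependent_pair_of_one_lt_rank hr hx0
  have hf : Module.finrank ℝ (Submodule.span ℝ (Set.range ![x, y])) = 2 := by
    rw [finrank_span_eq_card hy]
    simp
  obtain ⟨a, b, ha, hb, h1, h2⟩ := exists_sqrt_two hf
  exact ⟨a, b, by simpa using ha, by simpa using hb, by simpa using h1, by simpa using h2⟩

/-- the hexagon (`ε = 1`) and square (`ε = √2`) arguments -/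
lemma pair_exists (B : V →ₗ[ℝ] W →ₗ[ℝ] ℝ) (hB : ∀ v w, B v w ≤ ‖v‖ * ‖w‖)
    (hN : ∀ v, ‖v‖ = 1 → ∃ w, ‖w‖ = 1 ∧ B v w = 1) (hr : 1 < Module.rank ℝ V) {ε : ℝ}
    (hε : ε = 1 ∨ ε = √2) :
    ∃ (v₁ v₂ : V) (w₁ w₂ : W), ‖v₁‖ = 1 ∧ ‖v₂‖ = 1 ∧ ‖w₁‖ = 1 ∧ ‖w₂‖ = 1 ∧ B v₁ w₁ = 1 ∧
      B v₂ w₂ = 1 ∧ ‖v₁ - v₂‖ = ε ∧ ε ≤ ‖w₁ - w₂‖ := by
  rcases hε with rfl | rfl
  · obtain ⟨x, hx⟩ := exists_unit hr
    obtain ⟨y, hy, hxy⟩ := exists_dist hr hx (ε := 1) (by norm_num) (by norm_num)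
    obtain ⟨p, hp, hpx⟩ := hN x hx
    obtain ⟨q, hq, hqy⟩ := hN y hy
    obtain ⟨r, hr', hrw⟩ := hN (x - y) hxy
    by_cases h1 : 1 ≤ ‖p - q‖
    · exact ⟨x, y, p, q, hx, hy, hp, hq, hpx, hqy, hxy, h1⟩
    by_cases h2 : 1 ≤ ‖p - r‖
    · exact ⟨x, x - y, p, r, hx, hxy, hp, hr', hpx, hrw, by simpa using hy, h2⟩
    refine ⟨y, -(x - y), q, -r, hy, by simpa [norm_sub_rev] using hxy, hq, by simpa using hr',
      hqy, by rw [map_neg, map_neg, LinearMap.neg_apply, neg_neg]; exact hrw,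
      by simpa using hx, ?_⟩
    by_contra h3
    have b1 := hB (x - y) (p - q)
    have b2 := hB y (p - r)
    have b3 := hB x (q - -r)
    rw [hxy, one_mul] at b1
    rw [hy, one_mul] at b2
    rw [hx, one_mul] at b3
    simp only [map_sub, LinearMap.sub_apply, map_neg] at b1 b2 b3 hrw
    rw [not_le] at h1 h2 h3
    linarith
  · obtain ⟨x, y, hx, hy, hs, hd⟩ := exists_sqrt_two' hr
    obtain ⟨p, hp, hpx⟩ := hN x hx
    obtain ⟨q, hq, hqy⟩ := hN y hy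
    by_cases h1 : √2 ≤ ‖p - q‖
    · exact ⟨x, y, p, q, hx, hy, hp, hq, hpx, hqy, hd, h1⟩
    refine ⟨x, -y, p, -q, hx, by simpa using hy, hp, by simpa using hq, hpx, by simpa using hqy,
      by simpa using hs, ?_⟩
    by_contra h3
    have b1 := hB (x - y) (p - q)
    have b2 := hB (x + y) (p - -q)
    rw [hd] at b1
    rw [hs] at b2
    simp only [map_sub, LinearMap.sub_apply, map_neg, map_add, LinearMap.add_apply] at b1 b2
    rw [not_le] at h1 h3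
    have hs2 : (√2 : ℝ) ^ 2 = 2 := Real.sq_sqrt (by norm_num)
    have hs0 : (0 : ℝ) < √2 := by positivity
    nlinarith

end pair

section main

variable {X : Type*} [NormedAddCommGroup X] [NormedSpace ℝ X]

lemma upper (hr : 1 < Module.rank ℝ X) {ε : ℝ} (hε : ε = 1 ∨ ε = √2) :
    ∃ (x₁ x₂ : X) (p₁ p₂ : StrongDual ℝ X), ‖x₁‖ = 1 ∧ ‖x₂‖ = 1 ∧ ‖p₁‖ = 1 ∧ ‖p₂‖ = 1 ∧
      p₁ x₁ = 1 ∧ p₂ x₂ = 1 ∧ ‖x₁ - x₂‖ = ε ∧ ε ≤ ‖p₁ - p₂‖ := by
  refine pair_exists (V := X) (W := StrongDual ℝ X)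
    (ContinuousLinearMap.coeLM ℝ : (X →L[ℝ] ℝ) →ₗ[ℝ] X →ₗ[ℝ] ℝ).flip ?_ ?_ hr hε
  · intro v w
    show w v ≤ ‖v‖ * ‖w‖
    rw [mul_comm]
    exact (le_abs_self _).trans (w.le_opNorm v)
  · intro v hv
    obtain ⟨g, hg, hgv⟩ := exists_dual_vector ℝ v (by rw [hv]; norm_num)
    refine ⟨g, hg, ?_⟩
    show g v = 1
    rw [hgv, hv]
    norm_num

variable [FiniteDimensional ℝ X]

lemma attain (z : StrongDual ℝ X) : ∃ v : X, ‖v‖ ≤ 1 ∧ z v = ‖z‖ := by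
  have hc : IsCompact (closedBall (0 : X) 1) := isCompact_closedBall 0 1
  obtain ⟨v, hv, hmax⟩ := hc.exists_isMaxOn ⟨0, by simp⟩ (f := fun v => z v)
    z.continuous.continuousOn
  have hv1 : ‖v‖ ≤ 1 := by simpa using hv
  have h0 : 0 ≤ z v := by
    have := hmax (show (0 : X) ∈ closedBall (0 : X) 1 by simp)
    simpa using this
  refine ⟨v, hv1, le_antisymm ?_ ?_⟩
  · calc z v ≤ ‖z v‖ := le_abs_self _
      _ ≤ ‖z‖ * ‖v‖ := z.le_opNorm v
      _ ≤ ‖z‖ * 1 := by gcongr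
      _ = ‖z‖ := mul_one _
  · refine z.opNorm_le_bound h0 fun x => ?_
    rcases eq_or_ne x 0 with rfl | hx
    · simp
    have hxn : 0 < ‖x‖ := norm_pos_iff.mpr hx
    have key : ∀ u : X, ‖u‖ = ‖x‖ → z u ≤ z v * ‖x‖ := by
      intro u hu
      have hmem : ‖x‖⁻¹ • u ∈ closedBall (0 : X) 1 := by
        rw [mem_closedBall_zero_iff, norm_smul, hu, norm_inv, norm_norm,
          inv_mul_cancel₀ hxn.ne']
      have h2 : z (‖x‖⁻¹ • u) ≤ z v := hmax hmem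
      rw [map_smul, smul_eq_mul] at h2
      rw [inv_mul_le_iff₀ hxn] at h2
      linarith [mul_comm ‖x‖ (z v)]
    rw [Real.norm_eq_abs, abs_le']
    refine ⟨key x rfl, ?_⟩
    have := key (-x) (norm_neg x)
    simpa using this

lemma lower (hr : 1 < Module.rank ℝ X) {ε : ℝ} (hε : ε = 1 ∨ ε = √2) :
    ∃ (x₁ x₂ : X) (p₁ p₂ : StrongDual ℝ X), ‖x₁‖ = 1 ∧ ‖x₂‖ = 1 ∧ ‖p₁‖ = 1 ∧ ‖p₂‖ = 1 ∧
      p₁ x₁ = 1 ∧ p₂ x₂ = 1 ∧ ‖x₁ - x₂‖ = ε ∧ ‖p₁ - p₂‖ ≤ ε := by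
  have hε2 : ε < 2 := by
    rcases hε with rfl | rfl
    · norm_num
    · rw [Real.sqrt_lt' (by norm_num)]; norm_num
  have hε0 : 0 ≤ ε := by
    rcases hε with rfl | rfl
    · norm_num
    · positivity
  have hfr : Module.finrank ℝ (StrongDual ℝ X) = Module.finrank ℝ X := by
    rw [← LinearEquiv.finrank_eq (LinearMap.toContinuousLinearMap : (X →ₗ[ℝ] ℝ) ≃ₗ[ℝ] X →L[ℝ] ℝ)]
    exact Subspace.dual_finrank_eq
  have hfd : FiniteDimensional ℝ (StrongDual ℝ X) :=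
    LinearEquiv.finiteDimensional
      (LinearMap.toContinuousLinearMap : (X →ₗ[ℝ] ℝ) ≃ₗ[ℝ] X →L[ℝ] ℝ)
  have hrd : 1 < Module.rank ℝ (StrongDual ℝ X) := by
    rw [← Module.finrank_eq_rank, hfr]
    rw [← Module.finrank_eq_rank] at hr
    exact hr
  obtain ⟨p, q, x, y, hp, hq, hx, hy, hpx, hqy, hpq, hxy⟩ := pair_exists
    (V := StrongDual ℝ X) (W := X) (ContinuousLinearMap.coeLM ℝ) (by
      intro v w
      show v w ≤ ‖v‖ * ‖w‖
      exact (le_abs_self _).trans (v.le_opNorm w)) (by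
      intro v hv
      obtain ⟨w, hw, hw2⟩ := attain v
      refine ⟨w, le_antisymm hw ?_, ?_⟩
      · have h1 := (le_abs_self _).trans (v.le_opNorm w)
        rw [hw2, hv, one_mul] at h1
        exact h1
      · show v w = 1
        rw [hw2, hv]) hrd hε
  have hpx' : p x = 1 := hpx
  have hqy' : q y = 1 := hqy
  -- the normalised segment from `q` to `p`
  set z : ℝ → StrongDual ℝ X := fun t => (1 - t) • q + t • p with hz
  have hzc : Continuous z := by rw [hz]; fun_prop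
  have hz0 : ∀ t ∈ Set.Icc (0 : ℝ) 1, z t ≠ 0 := by
    intro t ht h0
    have e : p - q = (1 : ℝ) • (p - q) := by module
    have h1 : (1 - t) • q = -(t • p) := eq_neg_of_add_eq_zero_left h0
    have n1 : (1 - t) = t := by
      have := congrArg norm h1
      rw [norm_neg, norm_smul, norm_smul, hp, hq, Real.norm_of_nonneg (by linarith [ht.2]),
        Real.norm_of_nonneg ht.1] at this
      linarith
    have ht2 : t = 1 / 2 := by linarith
    have h2 : q = -p := by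
      have h3 : (2 : ℝ) • ((1 - t) • q) = (2 : ℝ) • (-(t • p)) := by rw [h1]
      rw [ht2] at h3
      have e1 : (2 : ℝ) • ((1 - 1 / 2 : ℝ) • q) = q := by module
      have e2 : (2 : ℝ) • (-((1 / 2 : ℝ) • p)) = -p := by module
      rw [e1, e2] at h3
      exact h3
    have h4 : ‖p - q‖ = 2 := by
      rw [h2, sub_neg_eq_add]
      have e1 : p + p = (2 : ℝ) • p := by module
      rw [e1, norm_smul, hp]
      norm_num
    rw [hpq] at h4
    linarith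
  -- the norming points
  set F : Set (ℝ × X) := {s | s.1 ∈ Set.Icc (0 : ℝ) 1 ∧ ‖s.2‖ ≤ 1 ∧ z s.1 s.2 = ‖z s.1‖} with hF
  have hFc : IsCompact F := by
    have h1 : IsCompact (Set.Icc (0 : ℝ) 1 ×ˢ closedBall (0 : X) 1) :=
      isCompact_Icc.prod (isCompact_closedBall 0 1)
    have h2 : IsClosed {s : ℝ × X | z s.1 s.2 = ‖z s.1‖} := by
      apply isClosed_eq
      · exact (hzc.comp continuous_fst).clm_apply continuous_snd
      · exact (hzc.comp continuous_fst).norm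
    have h3 : F = (Set.Icc (0 : ℝ) 1 ×ˢ closedBall (0 : X) 1) ∩
        {s : ℝ × X | z s.1 s.2 = ‖z s.1‖} := by
      ext s
      constructor
      · rintro ⟨a, b, c⟩
        exact ⟨⟨a, by simpa using b⟩, c⟩
      · rintro ⟨⟨a, b⟩, c⟩
        exact ⟨a, by simpa using b, c⟩
    rw [h3]
    exact h1.inter_right h2
  set A : Set ℝ := Prod.fst '' (F ∩ {s | ε ≤ ‖x - s.2‖}) with hA
  set A' : Set ℝ := Prod.fst '' (F ∩ {s | ‖x - s.2‖ ≤ ε}) with hA'
  have hAc : IsClosed A :=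
    ((hFc.inter_right (isClosed_le continuous_const (by fun_prop))).image
      continuous_fst).isClosed
  have hAc' : IsClosed A' :=
    ((hFc.inter_right (isClosed_le (by fun_prop) continuous_const)).image
      continuous_fst).isClosed
  have hcov : Set.Icc (0 : ℝ) 1 ⊆ A ∪ A' := by
    intro t ht
    obtain ⟨v, hv, hv2⟩ := attain (z t)
    rcases le_total ε ‖x - v‖ with h | h
    · exact Or.inl ⟨(t, v), ⟨⟨ht, hv, hv2⟩, h⟩, rfl⟩
    · exact Or.inr ⟨(t, v), ⟨⟨ht, hv, hv2⟩, h⟩, rfl⟩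
  have hz_0 : z 0 = q := by rw [hz]; simp
  have hz_1 : z 1 = p := by rw [hz]; simp
  have m0 : (Set.Icc (0 : ℝ) 1 ∩ A).Nonempty :=
    ⟨0, by simp, (0, y), ⟨⟨by simp, hy.le, by
      show z 0 y = ‖z 0‖
      rw [hz_0, hqy', hq]⟩, hxy⟩, rfl⟩
  have m1 : (Set.Icc (0 : ℝ) 1 ∩ A').Nonempty :=
    ⟨1, by simp, (1, x), ⟨⟨by simp, hx.le, by
      show z 1 x = ‖z 1‖
      rw [hz_1, hpx', hp]⟩, by simpa using hε0⟩, rfl⟩
  obtain ⟨t, ht, ⟨⟨t1, v1⟩, ⟨⟨-, hv1, hzv1⟩, hd1⟩, rfl⟩, ⟨⟨t2, v2⟩, ⟨⟨-, hv2, hzv2⟩, hd2⟩, h12⟩⟩ :=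
    isPreconnected_closed_iff.mp isPreconnected_Icc A A' hAc hAc' hcov m0 m1
  simp only at h12 ht hv1 hzv1 hd1 hv2 hzv2 hd2
  subst h12
  -- the segment between the two norming points
  have hseg : ∃ s ∈ Set.Icc (0 : ℝ) 1, ‖x - ((1 - s) • v2 + s • v1)‖ = ε := by
    have hcs : ContinuousOn (fun s : ℝ => ‖x - ((1 - s) • v2 + s • v1)‖) (Set.Icc 0 1) := by
      fun_prop
    have h := intermediate_value_Icc (zero_le_one) hcs
    have hmem : ε ∈ Set.Icc (‖x - ((1 - (0 : ℝ)) • v2 + (0 : ℝ) • v1)‖)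
        (‖x - ((1 - (1 : ℝ)) • v2 + (1 : ℝ) • v1)‖) := by
      constructor
      · simpa using hd2
      · simpa using hd1
    obtain ⟨s, hs, hs2⟩ := h hmem
    exact ⟨s, hs, hs2⟩
  obtain ⟨s, hs, hsd⟩ := hseg
  set v := (1 - s) • v2 + s • v1 with hv
  have hzt := hz0 t2 ht
  have hzn : 0 < ‖z t2‖ := norm_pos_iff.mpr hzt
  have hvle : ‖v‖ ≤ 1 := by
    calc ‖v‖ ≤ ‖(1 - s) • v2‖ + ‖s • v1‖ := norm_add_le _ _
      _ = (1 - s) * ‖v2‖ + s * ‖v1‖ := by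
        rw [norm_smul, norm_smul, Real.norm_of_nonneg (by linarith [hs.2]),
          Real.norm_of_nonneg hs.1]
      _ ≤ (1 - s) * 1 + s * 1 := by
        have h5 := hs.1
        have h6 : 0 ≤ 1 - s := by linarith [hs.2]
        gcongr
      _ = 1 := by ring
  have hzv : z t2 v = ‖z t2‖ := by
    rw [hv, map_add, map_smul, map_smul, hzv1, hzv2]
    simp only [smul_eq_mul]
    ring
  have hv1' : ‖v‖ = 1 := by
    apply le_antisymm hvle
    have h1 : ‖z t2‖ ≤ ‖z t2‖ * ‖v‖ := by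
      calc ‖z t2‖ = z t2 v := hzv.symm
        _ ≤ ‖z t2 v‖ := le_abs_self _
        _ ≤ _ := (z t2).le_opNorm v
    by_contra hlt
    rw [not_le] at hlt
    nlinarith
  refine ⟨x, v, p, ‖z t2‖⁻¹ • z t2, hx, hv1', hp, ?_, hpx', ?_, hsd, ?_⟩
  · rw [norm_smul, norm_inv, norm_norm, inv_mul_cancel₀ hzn.ne']
  · show (‖z t2‖⁻¹ • z t2) v = 1
    rw [_root_.smul_apply, hzv, smul_eq_mul, inv_mul_cancel₀ hzn.ne']
  · have := mono (p := p) (q := q) hp hq ht.1 ht.2 hzt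
    rw [hpq] at this
    exact this

end main

end Pool.Agent.R171.DM
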